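import Mathlib

/-! Basic measurability for 3-regular Borel graphs. -/

namespace Pool.Agent.E30

open MeasureTheory Set

universe u v

/-- A 3-regular Borel graph. -/
structure BG {V : Type u} [MeasurableSpace V] (G : SimpleGraph V) : Prop where
  meas : MeasurableSet {p : V × V | G.Adj p.1 p.2}
  reg : ∀ x, (G.neighborSet x).ncard = 3

variable {V : Type u} [MeasurableSpace V] [StandardBorelSpace V] {G : SimpleGraph V}

theorem exists_three_iff {x : V} (h3 : (G.neighborSet x).ncard = 3) (P : V → Prop) :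
    (¬ ∃ z, G.Adj x z ∧ ¬ P z) ↔
      ∃ a b c, a ≠ b ∧ a ≠ c ∧ b ≠ c ∧ G.Adj x a ∧ G.Adj x b ∧ G.Adj x c ∧ P a ∧ P b ∧ P c := by
  obtain ⟨a, b, c, hab, hac, hbc, he⟩ := Set.ncard_eq_three.1 h3
  have hm : ∀ z, G.Adj x z ↔ z = a ∨ z = b ∨ z = c := by
    intro z
    have : z ∈ G.neighborSet x ↔ z ∈ ({a, b, c} : Set V) := by rw [he]
    simpa using this
  constructor
  · intro h
    push Not at h
    refine ⟨a, b, c, hab, hac, hbc, ?_, ?_, ?_, ?_, ?_, ?_⟩
    · exact (hm a).2 (Or.inl rfl)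
    · exact (hm b).2 (Or.inr (Or.inl rfl))
    · exact (hm c).2 (Or.inr (Or.inr rfl))
    · exact h a ((hm a).2 (Or.inl rfl))
    · exact h b ((hm b).2 (Or.inr (Or.inl rfl)))
    · exact h c ((hm c).2 (Or.inr (Or.inr rfl)))
  · rintro ⟨p, q, r, hpq, hpr, hqr, hp, hq, hr, Pp, Pq, Pr⟩ ⟨z, hz, hPz⟩
    have hfin : (G.neighborSet x).Finite := Set.finite_of_ncard_ne_zero (by rw [h3]; norm_num)
    have hsub : ({p, q, r} : Set V) ⊆ G.neighborSet x := by
      rintro y (rfl | rfl | rfl)
      · exact hp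
      · exact hq
      · exact hr
    have hcard : ({p, q, r} : Set V).ncard = 3 :=
      Set.ncard_eq_three.2 ⟨p, q, r, hpq, hpr, hqr, rfl⟩
    have heq : ({p, q, r} : Set V) = G.neighborSet x :=
      Set.eq_of_subset_of_ncard_le hsub (by rw [h3, hcard]) hfin
    have : z ∈ ({p, q, r} : Set V) := by rw [heq]; exact hz
    rcases this with (rfl | rfl | rfl)
    · exact hPz Pp
    · exact hPz Pq
    · exact hPz Pr

/-- Borel sets are closed under `exists a neighbour in the last coordinate`. -/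
theorem BG.exists_adj_param (hG : BG G) {X : Type v} [MeasurableSpace X] [StandardBorelSpace X]
    {S : Set (X × V)} (hS : MeasurableSet S) :
    MeasurableSet {p : X × V | ∃ z, G.Adj p.2 z ∧ (p.1, z) ∈ S} := by
  letI := upgradeStandardBorel (X × V)
  apply MeasureTheory.AnalyticSet.measurableSet_of_compl
  · have e : {p : X × V | ∃ z, G.Adj p.2 z ∧ (p.1, z) ∈ S} =
        (fun q : (X × V) × V => q.1) '' {q : (X × V) × V | G.Adj q.1.2 q.2 ∧ (q.1.1, q.2) ∈ S} := by
      ext p
      constructor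
      · rintro ⟨z, h1, h2⟩
        exact ⟨(p, z), ⟨h1, h2⟩, rfl⟩
      · rintro ⟨⟨p', z⟩, ⟨h1, h2⟩, rfl⟩
        exact ⟨z, h1, h2⟩
    rw [e]
    refine MeasurableSet.analyticSet_image ?_ measurable_fst
    refine MeasurableSet.inter ?_ ?_
    · exact (measurable_fst.snd.prodMk measurable_snd) hG.meas
    · exact (measurable_fst.fst.prodMk measurable_snd) hS
  · have e : {p : X × V | ∃ z, G.Adj p.2 z ∧ (p.1, z) ∈ S}ᶜ =
        (fun q : (X × V) × (V × V × V) => q.1) '' {q : (X × V) × (V × V × V) |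
          q.2.1 ≠ q.2.2.1 ∧ q.2.1 ≠ q.2.2.2 ∧ q.2.2.1 ≠ q.2.2.2 ∧
          G.Adj q.1.2 q.2.1 ∧ G.Adj q.1.2 q.2.2.1 ∧ G.Adj q.1.2 q.2.2.2 ∧
          ¬ (q.1.1, q.2.1) ∈ S ∧ ¬ (q.1.1, q.2.2.1) ∈ S ∧ ¬ (q.1.1, q.2.2.2) ∈ S} := by
      ext p
      have h := exists_three_iff (G := G) (hG.reg p.2) (fun z => ¬ (p.1, z) ∈ S)
      simp only [not_not] at h
      rw [Set.mem_compl_iff, Set.mem_setOf_eq, h]
      constructor
      · rintro ⟨a, b, c, h1⟩
        exact ⟨(p, (a, b, c)), h1, rfl⟩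
      · rintro ⟨⟨p', a, b, c⟩, h1, rfl⟩
        exact ⟨a, b, c, h1⟩
    rw [e]
    refine MeasurableSet.analyticSet_image ?_ measurable_fst
    have m1 : Measurable fun q : (X × V) × (V × V × V) => q.2.1 := measurable_snd.fst
    have m2 : Measurable fun q : (X × V) × (V × V × V) => q.2.2.1 := measurable_snd.snd.fst
    have m3 : Measurable fun q : (X × V) × (V × V × V) => q.2.2.2 := measurable_snd.snd.snd
    have mx : Measurable fun q : (X × V) × (V × V × V) => q.1.1 := measurable_fst.fst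
    have mv : Measurable fun q : (X × V) × (V × V × V) => q.1.2 := measurable_fst.snd
    refine (measurableSet_eq_fun m1 m2).compl.inter ?_
    refine (measurableSet_eq_fun m1 m3).compl.inter ?_
    refine (measurableSet_eq_fun m2 m3).compl.inter ?_
    refine ((mv.prodMk m1) hG.meas).inter ?_
    refine ((mv.prodMk m2) hG.meas).inter ?_
    refine ((mv.prodMk m3) hG.meas).inter ?_
    refine ((mx.prodMk m1) hS).compl.inter ?_
    refine ((mx.prodMk m2) hS).compl.inter ?_
    exact ((mx.prodMk m3) hS).compl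

/-- the set of vertices with a neighbour in `U` -/
def nb (G : SimpleGraph V) (U : Set V) : Set V := {x | ∃ z, G.Adj x z ∧ z ∈ U}

theorem BG.nb_meas (hG : BG G) {U : Set V} (hU : MeasurableSet U) : MeasurableSet (nb G U) := by
  have h := hG.exists_adj_param (X := Unit) (S := {p : Unit × V | p.2 ∈ U}) (measurable_snd hU)
  have e : nb G U = (fun x : V => ((), x)) ⁻¹' {p : Unit × V | ∃ z, G.Adj p.2 z ∧
      (p.1, z) ∈ {p : Unit × V | p.2 ∈ U}} := rfl
  rw [e]
  exact (measurable_const.prodMk measurable_id) h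

/-- reachable by a walk of length exactly `k` into `U` -/
def wk (G : SimpleGraph V) (U : Set V) : ℕ → Set V
  | 0 => U
  | k + 1 => nb G (wk G U k)

theorem BG.wk_meas (hG : BG G) {U : Set V} (hU : MeasurableSet U) (k : ℕ) :
    MeasurableSet (wk G U k) := by
  induction k with
  | zero => exact hU
  | succ k ih => exact hG.nb_meas ih

theorem mem_wk_iff {U : Set V} {k : ℕ} {x : V} :
    x ∈ wk G U k ↔ ∃ z ∈ U, ∃ p : G.Walk x z, p.length = k := by
  induction k generalizing x with
  | zero =>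
    constructor
    · intro h
      exact ⟨x, h, SimpleGraph.Walk.nil, rfl⟩
    · rintro ⟨z, hz, p, hp⟩
      have := SimpleGraph.Walk.eq_of_length_eq_zero hp
      subst this
      exact hz
  | succ k ih =>
    constructor
    · rintro ⟨y, hxy, hy⟩
      obtain ⟨z, hz, p, hp⟩ := ih.1 hy
      exact ⟨z, hz, SimpleGraph.Walk.cons hxy p, by simp [hp]⟩
    · rintro ⟨z, hz, p, hp⟩
      cases p with
      | nil => simp at hp
      | cons h q =>
        refine ⟨_, h, ih.2 ⟨z, hz, q, ?_⟩⟩
        simpa using hp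

end Pool.Agent.E30
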