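import Pool.Agent.Lib.MP_e30c56_lc.Tri

/-! The closure criterion: a triangle of `H` spreads to the neighbours of a single vertex.  Graphs
without an induced pair of independent edges satisfy it as soon as they are not 3-colourable. -/

set_option linter.unusedSectionVars false

namespace Pool.Agent.E30

open Set

universe w

variable {W : Type w}

/-- The triangle criterion: there are a triangle `t 0, t 1, t 2` of `H`, a number `m` of steps of
the closure `Cl` and a vertex `w0` with a neighbour in each of the three sets of step `m`. -/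
def TR (H : SimpleGraph W) : Prop :=
  ∃ t : ℕ → W, (∀ a < 3, ∀ b < 3, a ≠ b → H.Adj (t a) (t b)) ∧
    ∃ (m : ℕ) (w0 : W), ∀ k < 3, ∃ a ∈ Cl H t m k, H.Adj w0 a

/-- any two edges are joined by an edge (edges which share a vertex always are) -/
def TwoK2Free (H : SimpleGraph W) : Prop :=
  ∀ a b c d, H.Adj a b → H.Adj c d → H.Adj a c ∨ H.Adj a d ∨ H.Adj b c ∨ H.Adj b d

theorem scheme_of_TR {H : SimpleGraph W} (h : TR H) : ∃ m, Nonempty (Scheme H m) := by
  obtain ⟨t, ht, m, w0, hw⟩ := h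
  refine ⟨m, ⟨{ t := t, X := Cl H t, w0 := w0, ht := ht, hX0 := ?_, hX := ?_, hw := ?_ }⟩⟩
  · intro k _
    exact Set.Subset.rfl
  · intro i k _ k' hk' hne a ha
    exact ha k' hk' hne
  · intro k hk
    exact hw k hk

/-- the closure is stationary from some step on -/
private theorem exists_stable [Finite W] {H : SimpleGraph W} {t : ℕ → W}
    (ht : ∀ a < 3, ∀ b < 3, a ≠ b → H.Adj (t a) (t b)) :
    ∃ m, ∀ k < 3, Cl H t (m + 1) k ⊆ Cl H t m k := by
  let f : ℕ →o (Fin 3 → Set W) :=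
    ⟨fun i k => Cl H t i k, fun i j hij k => Cl_mono ht hij k k.2⟩
  obtain ⟨m, hm⟩ := WellFoundedGT.monotone_chain_condition f
  refine ⟨m, fun k hk => ?_⟩
  have h := congrFun (hm (m + 1) (Nat.le_succ m)) ⟨k, hk⟩
  exact (show Cl H t m k = Cl H t (m + 1) k from h).ge

/-- a graph without triangle in which any two edges are joined is 3-colourable -/
private theorem colorable_of_no_triangle {H : SimpleGraph W} (h2 : TwoK2Free H)
    (hno : ¬ ∃ a b c, H.Adj a b ∧ H.Adj b c ∧ H.Adj a c) : H.Colorable 3 := by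
  classical
  by_cases he : ∃ u v, H.Adj u v
  · obtain ⟨u, v, huv⟩ := he
    refine ⟨SimpleGraph.Coloring.mk
      (fun x => if H.Adj x v then 0 else if H.Adj x u then 1 else 2) ?_⟩
    intro x y hxy
    split_ifs with h1 h3 h4 h5 h6 h7 h8 h9
    · exact absurd ⟨x, y, v, hxy, h3, h1⟩ hno
    · decide
    · decide
    · decide
    · exact absurd ⟨x, y, u, hxy, h7, h5⟩ hno
    · decide
    · decide
    · decide
    · rcases h2 x y u v hxy huv with h | h | h | h
      · exact absurd h h5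
      · exact absurd h h1
      · exact absurd h h9
      · exact absurd h h8
  · refine ⟨SimpleGraph.Coloring.mk (fun _ => 0) ?_⟩
    intro x y hxy
    exact absurd ⟨x, y, hxy⟩ he

/-- the colours of two adjacent vertices differ -/
private theorem col_key {p0 p1 p2 q0 q1 q2 : Prop} [Decidable p0] [Decidable p1] [Decidable p2]
    [Decidable q0] [Decidable q1] [Decidable q2]
    (e01 : p0 ∨ p1 ∨ q0 ∨ q1) (e02 : p0 ∨ p2 ∨ q0 ∨ q2) (e12 : p1 ∨ p2 ∨ q1 ∨ q2)
    (s0 : p1 → p2 → q0) (s1 : p0 → p2 → q1) (s2 : p0 → p1 → q2)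
    (r0 : q1 → q2 → p0) (r1 : q0 → q2 → p1) (r2 : q0 → q1 → p2)
    (nx : ¬ (p0 ∧ p1 ∧ p2)) :
    (if p0 then (if p1 then 2 else 1) else (if p1 then (if p2 then 0 else 2) else 0) : Fin 3) ≠
      (if q0 then (if q1 then 2 else 1) else (if q1 then (if q2 then 0 else 2) else 0)) := by
  by_cases h0 : p0 <;> by_cases h1 : p1 <;> by_cases h2 : p2 <;>
    by_cases k0 : q0 <;> by_cases k1 : q1 <;> by_cases k2 : q2 <;>
    simp_all

/-- **P2**: graphs without two independent edges which are not 3-colourable satisfy (TR) -/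
theorem TR_of_twoK2Free [Finite W] {H : SimpleGraph W} (h2 : TwoK2Free H)
    (h3 : ¬ H.Colorable 3) : TR H := by
  classical
  have htri : ∃ a b c, H.Adj a b ∧ H.Adj b c ∧ H.Adj a c := by
    by_contra hno
    exact h3 (colorable_of_no_triangle h2 hno)
  obtain ⟨a, b, c, hab, hbc, hac⟩ := htri
  set t : ℕ → W := fun k => if k = 0 then a else if k = 1 then b else c with htd
  have ht : ∀ i < 3, ∀ j < 3, i ≠ j → H.Adj (t i) (t j) := by
    intro i hi j hj hij
    have h1 : i = 0 ∨ i = 1 ∨ i = 2 := by omega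
    have h2 : j = 0 ∨ j = 1 ∨ j = 2 := by omega
    rcases h1 with rfl | rfl | rfl <;> rcases h2 with rfl | rfl | rfl <;>
      simp [htd, hab, hbc, hac, hab.symm, hbc.symm, hac.symm] at hij ⊢
  clear_value t
  obtain ⟨m, hm⟩ := exists_stable ht
  by_contra hnot
  have hno : ∀ x, ¬ ∀ k < 3, ∃ a ∈ Cl H t m k, H.Adj x a := fun x hx => hnot ⟨t, ht, m, x, hx⟩
  let P : ℕ → W → Prop := fun k x => ∃ a ∈ Cl H t m k, H.Adj x a
  have hP : ∀ x, ¬ (P 0 x ∧ P 1 x ∧ P 2 x) := by
    rintro x ⟨p0, p1, p2⟩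
    apply hno x
    intro k hk
    have h1 : k = 0 ∨ k = 1 ∨ k = 2 := by omega
    rcases h1 with rfl | rfl | rfl
    · exact p0
    · exact p1
    · exact p2
  have hC : ∀ x, ∀ k < 3, (∀ k' < 3, k ≠ k' → P k' x) → x ∈ Cl H t m k :=
    fun x k hk h => hm k hk h
  have htm : ∀ k < 3, t k ∈ Cl H t m k := fun k hk => Cl_mono ht (Nat.zero_le m) k hk rfl
  have hE : ∀ x y, H.Adj x y → ∀ i < 3, ∀ j < 3, i ≠ j → P i x ∨ P j x ∨ P i y ∨ P j y := by
    intro x y hxy i hi j hj hij
    rcases h2 x y (t i) (t j) hxy (ht i hi j hj hij) with h | h | h | h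
    · exact Or.inl ⟨_, htm i hi, h⟩
    · exact Or.inr (Or.inl ⟨_, htm j hj, h⟩)
    · exact Or.inr (Or.inr (Or.inl ⟨_, htm i hi, h⟩))
    · exact Or.inr (Or.inr (Or.inr ⟨_, htm j hj, h⟩))
  have hS : ∀ x y, H.Adj x y → (P 1 x → P 2 x → P 0 y) ∧ (P 0 x → P 2 x → P 1 y) ∧
      (P 0 x → P 1 x → P 2 y) := by
    intro x y hxy
    refine ⟨fun p q => ?_, fun p q => ?_, fun p q => ?_⟩
    · refine ⟨x, hC x 0 (by norm_num) ?_, hxy.symm⟩
      intro k hk hne
      have h1 : k = 1 ∨ k = 2 := by omega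
      rcases h1 with rfl | rfl
      · exact p
      · exact q
    · refine ⟨x, hC x 1 (by norm_num) ?_, hxy.symm⟩
      intro k hk hne
      have h1 : k = 0 ∨ k = 2 := by omega
      rcases h1 with rfl | rfl
      · exact p
      · exact q
    · refine ⟨x, hC x 2 (by norm_num) ?_, hxy.symm⟩
      intro k hk hne
      have h1 : k = 0 ∨ k = 1 := by omega
      rcases h1 with rfl | rfl
      · exact p
      · exact q
  apply h3
  refine ⟨SimpleGraph.Coloring.mk (fun x => if P 0 x then (if P 1 x then 2 else 1) else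
    (if P 1 x then (if P 2 x then 0 else 2) else 0)) ?_⟩
  intro x y hxy
  have e01 := hE x y hxy 0 (by norm_num) 1 (by norm_num) (by norm_num)
  have e02 := hE x y hxy 0 (by norm_num) 2 (by norm_num) (by norm_num)
  have e12 := hE x y hxy 1 (by norm_num) 2 (by norm_num) (by norm_num)
  obtain ⟨s0, s1, s2⟩ := hS x y hxy
  obtain ⟨r0, r1, r2⟩ := hS y x hxy.symm
  have nx := hP x
  exact col_key e01 e02 e12 s0 s1 s2 r0 r1 r2 nx

/-- conversely every turning scheme gives (TR) -/
theorem TR_of_scheme {H : SimpleGraph W} {m : ℕ} (S : Scheme H m) : TR H := by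
  refine ⟨S.t, S.ht, m, S.w0, ?_⟩
  have key : ∀ i, ∀ k < 3, S.X i k ⊆ Cl H S.t i k := by
    intro i
    induction i with
    | zero => exact fun k hk => S.hX0 k hk
    | succ i ih =>
      intro k hk a ha k' hk' hne
      obtain ⟨b, hb, hab⟩ := S.hX i k hk k' hk' hne a ha
      exact ⟨b, ih k' hk' hb, hab⟩
  intro k hk
  obtain ⟨b, hb, hab⟩ := S.hw k hk
  exact ⟨b, key m k hk hb, hab⟩

/-- a triangle-connected subgraph which is not 3-colourable gives (TR) -/
theorem TR_of_triangleConnected {H K : SimpleGraph W} (hKH : K ≤ H) (hK : TriangleConnected K)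
    (h3 : ¬ K.Colorable 3) : TR H := by
  obtain ⟨m, ⟨S⟩⟩ := exists_scheme hKH hK h3
  exact TR_of_scheme S

end Pool.Agent.E30
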