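import Pool.Agent.Lib.MP_e30c56_lc.Mis

/-! Borel 4-colourings, and 3-colourings off a sparse set, of 3-regular Borel graphs. -/

set_option linter.unusedSectionVars false

namespace Pool.Agent.E30

open MeasureTheory Set

universe u v

variable {V : Type u} [MeasurableSpace V] [StandardBorelSpace V] {G : SimpleGraph V}

theorem no_four (hG : BG G) {x a b c d : V} (ha : G.Adj x a) (hb : G.Adj x b) (hc : G.Adj x c)
    (hd : G.Adj x d) (hab : a ≠ b) (hac : a ≠ c) (had : a ≠ d) (hbc : b ≠ c) (hbd : b ≠ d)
    (hcd : c ≠ d) : False := by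
  obtain ⟨p, q, r, _, _, _, he⟩ := Set.ncard_eq_three.1 (hG.reg x)
  have hm : ∀ z, G.Adj x z → z = p ∨ z = q ∨ z = r := by
    intro z hz
    have : z ∈ ({p, q, r} : Set V) := by rw [← he]; exact hz
    simpa using this
  rcases hm a ha with rfl | rfl | rfl <;> rcases hm b hb with rfl | rfl | rfl <;>
    rcases hm c hc with rfl | rfl | rfl <;> rcases hm d hd with rfl | rfl | rfl <;> simp_all

theorem walk_le_one {x y : V} (hxy : x ≠ y) (p : G.Walk x y) (hp : p.length ≤ 1) : G.Adj x y := by
  cases p with
  | nil => exact absurd rfl hxy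
  | cons h q =>
    have : q.length = 0 := by
      rw [SimpleGraph.Walk.length_cons] at hp
      omega
    have := SimpleGraph.Walk.eq_of_length_eq_zero this
    subst this
    exact h

/-- a Borel proper 4-colouring -/
theorem BG.exists_four (hG : BG G) :
    ∃ κ : V → ℕ, Measurable κ ∧ (∀ x, κ x < 4) ∧ ∀ x y, G.Adj x y → κ x ≠ κ y := by
  classical
  obtain ⟨A, -, hAm, hAd, hAc⟩ := hG.exists_max_discrete MeasurableSet.univ 1
  obtain ⟨B, hBs, hBm, hBd, hBc⟩ := hG.exists_max_discrete hAm.compl 1
  obtain ⟨C, hCs, hCm, hCd, hCc⟩ := hG.exists_max_discrete (hAm.union hBm).compl 1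
  have hind : ∀ S : Set V, (∀ x ∈ S, ∀ y ∈ S, x ≠ y → ∀ p : G.Walk x y, 1 < p.length) →
      ∀ x ∈ S, ∀ y ∈ S, ¬ G.Adj x y := by
    intro S hS x hx y hy hxy
    have := hS x hx y hy hxy.ne (SimpleGraph.Walk.cons hxy SimpleGraph.Walk.nil)
    simp at this
  have hA1 : ∀ x ∉ A, ∃ y ∈ A, G.Adj x y := by
    intro x hx
    obtain ⟨y, hy, p, hp⟩ := hAc x trivial
    exact ⟨y, hy, walk_le_one (fun h => hx (h ▸ hy)) p hp⟩
  have hB1 : ∀ x ∉ A, x ∉ B → ∃ y ∈ B, G.Adj x y := by
    intro x hxA hxB
    obtain ⟨y, hy, p, hp⟩ := hBc x hxA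
    exact ⟨y, hy, walk_le_one (fun h => hxB (h ▸ hy)) p hp⟩
  have hC1 : ∀ x ∉ A, x ∉ B → x ∉ C → ∃ y ∈ C, G.Adj x y := by
    intro x hxA hxB hxC
    obtain ⟨y, hy, p, hp⟩ := hCc x (by simp [hxA, hxB])
    exact ⟨y, hy, walk_le_one (fun h => hxC (h ▸ hy)) p hp⟩
  refine ⟨fun x => if x ∈ A then 0 else if x ∈ B then 1 else if x ∈ C then 2 else 3, ?_, ?_, ?_⟩
  · exact Measurable.ite hAm measurable_const (Measurable.ite hBm measurable_const
      (Measurable.ite hCm measurable_const measurable_const))
  · intro x
    dsimp only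
    split_ifs <;> norm_num
  · intro x y hxy
    dsimp only
    by_cases hxA : x ∈ A
    · have hyA : y ∉ A := fun h => hind A hAd x hxA y h hxy
      rw [if_pos hxA, if_neg hyA]
      split_ifs <;> norm_num
    · by_cases hyA : y ∈ A
      · rw [if_neg hxA, if_pos hyA]
        split_ifs <;> norm_num
      · rw [if_neg hxA, if_neg hyA]
        by_cases hxB : x ∈ B
        · have hyB : y ∉ B := fun h => hind B hBd x hxB y h hxy
          rw [if_pos hxB, if_neg hyB]
          split_ifs <;> norm_num
        · by_cases hyB : y ∈ B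
          · rw [if_neg hxB, if_pos hyB]
            split_ifs <;> norm_num
          · rw [if_neg hxB, if_neg hyB]
            by_cases hxC : x ∈ C
            · have hyC : y ∉ C := fun h => hind C hCd x hxC y h hxy
              rw [if_pos hxC, if_neg hyC]
              norm_num
            · by_cases hyC : y ∈ C
              · rw [if_neg hxC, if_pos hyC]
                norm_num
              · exfalso
                obtain ⟨a, ha, hxa⟩ := hA1 x hxA
                obtain ⟨b, hb, hxb⟩ := hB1 x hxA hxB
                obtain ⟨c, hc, hxc⟩ := hC1 x hxA hxB hxC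
                have hbA : b ∉ A := hBs hb
                have hcA : c ∉ A := fun h => hCs hc (Or.inl h)
                have hcB : c ∉ B := fun h => hCs hc (Or.inr h)
                exact no_four hG hxa hxb hxc hxy (fun h => hbA (h ▸ ha)) (fun h => hcA (h ▸ ha))
                  (fun h => hyA (h ▸ ha)) (fun h => hcB (h ▸ hb)) (fun h => hyB (h ▸ hb))
                  (fun h => hyC (h ▸ hc))

/-- least colour in `{0, 1, 2}` not used by `g` on the neighbours -/
noncomputable def stp (G : SimpleGraph V) (g : V → ℕ) (x : V) : ℕ := by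
  classical
  exact if x ∈ nb G {z | g z = 0} then (if x ∈ nb G {z | g z = 1} then 2 else 1) else 0

theorem BG.stp_meas (hG : BG G) {g : V → ℕ} (hg : Measurable g) : Measurable (stp G g) := by
  classical
  refine Measurable.ite (hG.nb_meas (hg (measurableSet_singleton 0))) ?_ measurable_const
  exact Measurable.ite (hG.nb_meas (hg (measurableSet_singleton 1))) measurable_const
    measurable_const

/-- greedy colouring in the order of `T`; the value `3` means uncoloured -/
noncomputable def gcol (G : SimpleGraph V) (T : V → ℕ) : ℕ → V → ℕ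
  | 0, _ => 3
  | t + 1, x => if T x = t then stp G (gcol G T t) x else gcol G T t x

theorem BG.gcol_meas (hG : BG G) {T : V → ℕ} (hT : Measurable T) (t : ℕ) :
    Measurable (gcol G T t) := by
  induction t with
  | zero => exact measurable_const
  | succ t ih =>
    exact Measurable.ite (hT (measurableSet_singleton t)) (hG.stp_meas ih) ih

theorem gcol_before {T : V → ℕ} {t : ℕ} {x : V} (h : t ≤ T x) : gcol G T t x = 3 := by
  induction t with
  | zero => rfl
  | succ t ih =>
    show (if T x = t then stp G (gcol G T t) x else gcol G T t x) = 3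
    rw [if_neg (by omega)]
    exact ih (by omega)

theorem gcol_after {T : V → ℕ} {t : ℕ} {x : V} (h : T x < t) :
    gcol G T t x = stp G (gcol G T (T x)) x := by
  induction t with
  | zero => omega
  | succ t ih =>
    show (if T x = t then stp G (gcol G T t) x else gcol G T t x) = _
    by_cases hx : T x = t
    · rw [if_pos hx, hx]
    · rw [if_neg hx]
      exact ih (by omega)

theorem stp_lt {g : V → ℕ} {x : V} : stp G g x < 3 := by
  unfold stp
  split_ifs <;> norm_num

theorem BG.exists_greedy (hG : BG G) {T : V → ℕ} (hT : Measurable T)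
    (hne : ∀ x y, G.Adj x y → T x ≠ T y) {Z : Set V}
    (hlat : ∀ y ∉ Z, ∃ p, G.Adj y p ∧ T y < T p) :
    ∃ c : V → ℕ, Measurable c ∧ (∀ x, c x < 3) ∧
      ∀ x ∉ Z, ∀ y ∉ Z, G.Adj x y → c x ≠ c y := by
  refine ⟨fun x => stp G (gcol G T (T x)) x, ?_, fun x => stp_lt, ?_⟩
  · have h1 : Measurable fun p : ℕ × V => stp G (gcol G T p.1) p.2 :=
      measurable_from_prod_countable_right fun m => hG.stp_meas (hG.gcol_meas hT m)
    exact h1.comp (hT.prodMk measurable_id)
  · have key : ∀ x, ∀ y ∉ Z, G.Adj y x → T x < T y →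
        stp G (gcol G T (T x)) x ≠ stp G (gcol G T (T y)) y := by
      intro x y hy hxy hlt heq
      have hgx : gcol G T (T y) x = stp G (gcol G T (T x)) x := gcol_after hlt
      have hlt3 : stp G (gcol G T (T x)) x < 3 := stp_lt
      set g := gcol G T (T y) with hg
      set cx := stp G (gcol G T (T x)) x with hcx
      unfold stp at heq
      by_cases h0 : y ∈ nb G {z | g z = 0}
      · rw [if_pos h0] at heq
        by_cases h1 : y ∈ nb G {z | g z = 1}
        · rw [if_pos h1] at heq
          obtain ⟨a, ha, ha'⟩ := h0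
          obtain ⟨b, hb, hb'⟩ := h1
          obtain ⟨p, hp, hpT⟩ := hlat y hy
          have ha0 : g a = 0 := ha'
          have hb1 : g b = 1 := hb'
          have hp3 : g p = 3 := gcol_before hpT.le
          have hx2 : g x = 2 := by rw [hgx, heq]
          refine no_four hG ha hb hxy hp ?_ ?_ ?_ ?_ ?_ ?_ <;> rintro rfl <;> omega
        · rw [if_neg h1] at heq
          exact h1 ⟨x, hxy, by show g x = 1; rw [hgx, heq]⟩
      · rw [if_neg h0] at heq
        exact h0 ⟨x, hxy, by show g x = 0; rw [hgx, heq]⟩
    intro x hx y hy hxy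
    rcases lt_or_gt_of_ne (hne x y hxy) with h | h
    · exact key x y hy hxy.symm h
    · exact (key y x hx hxy h).symm

end Pool.Agent.E30
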