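import Pool.Agent.Lib.MP_e30c56_lc.Basic

/-! Borel maximal discrete subsets of 3-regular Borel graphs. -/

set_option linter.unusedSectionVars false

namespace Pool.Agent.E30

open MeasureTheory Set

universe u v

variable {V : Type u} [MeasurableSpace V] [StandardBorelSpace V] {G : SimpleGraph V}

/-- pairs `(x, z)` such that a walk of length `k` joins `z` to a point of `U` other than `x` -/
def twk (G : SimpleGraph V) (U : Set V) : ℕ → Set (V × V)
  | 0 => {p | p.2 ∈ U ∧ p.2 ≠ p.1}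
  | k + 1 => {p | ∃ z, G.Adj p.2 z ∧ (p.1, z) ∈ twk G U k}

theorem BG.twk_meas (hG : BG G) {U : Set V} (hU : MeasurableSet U) (k : ℕ) :
    MeasurableSet (twk G U k) := by
  induction k with
  | zero =>
    exact (measurable_snd hU).inter (measurableSet_eq_fun measurable_snd measurable_fst).compl
  | succ k ih => exact hG.exists_adj_param ih

theorem mem_twk_iff {U : Set V} {k : ℕ} {x z : V} :
    (x, z) ∈ twk G U k ↔ ∃ u ∈ U, u ≠ x ∧ ∃ p : G.Walk z u, p.length = k := by
  induction k generalizing z with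
  | zero =>
    constructor
    · rintro ⟨h1, h2⟩
      exact ⟨z, h1, h2, SimpleGraph.Walk.nil, rfl⟩
    · rintro ⟨u, hu, hux, p, hp⟩
      have := SimpleGraph.Walk.eq_of_length_eq_zero hp
      subst this
      exact ⟨hu, hux⟩
  | succ k ih =>
    constructor
    · rintro ⟨y, hxy, hy⟩
      obtain ⟨u, hu, hux, p, hp⟩ := ih.1 hy
      exact ⟨u, hu, hux, SimpleGraph.Walk.cons hxy p, by simp [hp]⟩
    · rintro ⟨u, hu, hux, p, hp⟩
      cases p with
      | nil => simp at hp
      | cons h q =>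
        refine ⟨_, h, ih.2 ⟨u, hu, hux, q, ?_⟩⟩
        simpa using hp

theorem BG.finite_sphere (hG : BG G) (x : V) (k : ℕ) :
    {u | ∃ p : G.Walk x u, p.length = k}.Finite := by
  induction k generalizing x with
  | zero =>
    refine (Set.finite_singleton x).subset ?_
    rintro u ⟨p, hp⟩
    exact (SimpleGraph.Walk.eq_of_length_eq_zero hp).symm
  | succ k ih =>
    have hfin : (G.neighborSet x).Finite :=
      Set.finite_of_ncard_ne_zero (by rw [hG.reg x]; norm_num)
    refine (hfin.biUnion fun y _ => ih y).subset ?_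
    rintro u ⟨p, hp⟩
    cases p with
    | nil => simp at hp
    | cons h q =>
      refine Set.mem_biUnion (x := _) h ⟨q, ?_⟩
      simpa using hp

/-- greedy choice -/
def ych (G : SimpleGraph V) (R : ℕ) (A : ℕ → Set V) : ℕ → Set V
  | 0 => ∅
  | n + 1 => ych G R A n ∪ (A n ∩ ⋂ j ∈ Finset.range (R + 1), (wk G (ych G R A n) j)ᶜ)

theorem ych_mono {R : ℕ} {A : ℕ → Set V} {m n : ℕ} (h : m ≤ n) :
    ych G R A m ⊆ ych G R A n := by
  induction n with
  | zero => rw [Nat.le_zero.1 h]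
  | succ n ih =>
    rcases Nat.lt_or_ge m (n + 1) with h1 | h1
    · exact (ih (Nat.lt_succ_iff.1 h1)).trans Set.subset_union_left
    · rw [le_antisymm h h1]

theorem BG.ych_meas (hG : BG G) {R : ℕ} {A : ℕ → Set V} (hA : ∀ n, MeasurableSet (A n)) (n : ℕ) :
    MeasurableSet (ych G R A n) := by
  induction n with
  | zero => exact MeasurableSet.empty
  | succ n ih =>
    exact ih.union ((hA n).inter (Finset.measurableSet_biInter _
      fun j _ => (hG.wk_meas ih j).compl))

theorem BG.exists_max_discrete (hG : BG G) {B : Set V} (hB : MeasurableSet B) (R : ℕ) :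
    ∃ Y ⊆ B, MeasurableSet Y ∧ (∀ x ∈ Y, ∀ y ∈ Y, x ≠ y → ∀ p : G.Walk x y, R < p.length) ∧
      (∀ x ∈ B, ∃ y ∈ Y, ∃ p : G.Walk x y, p.length ≤ R) := by
  obtain ⟨e, he⟩ := MeasureTheory.exists_measurableEmbedding_real V
  obtain ⟨q, hq⟩ := exists_surjective_nat (ℚ × ℚ)
  set U : ℕ → Set V := fun n => e ⁻¹' Set.Ioo ((q n).1 : ℝ) ((q n).2 : ℝ) with hU
  have hUm : ∀ n, MeasurableSet (U n) := fun n => he.measurable measurableSet_Ioo
  set A : ℕ → Set V := fun n => (U n ∩ B) ∩ ⋂ j ∈ Finset.range (R + 1),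
    {x | (x, x) ∈ twk G (U n) j}ᶜ with hA
  have hAm : ∀ n, MeasurableSet (A n) := by
    intro n
    refine ((hUm n).inter hB).inter (Finset.measurableSet_biInter _ fun j _ => ?_)
    exact ((measurable_id.prodMk measurable_id) (hG.twk_meas (hUm n) j)).compl
  have hAd : ∀ n, ∀ x ∈ A n, ∀ y ∈ A n, x ≠ y → ∀ p : G.Walk x y, R < p.length := by
    intro n x hx y hy hxy p
    by_contra hlt
    have h1 := hx.2
    simp only [Finset.mem_range, Set.mem_iInter, Set.mem_compl_iff] at h1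
    refine h1 p.length (by omega) ?_
    exact mem_twk_iff.2 ⟨y, hy.1.1, hxy.symm, p, rfl⟩
  have hAc : ∀ x ∈ B, ∃ n, x ∈ A n := by
    intro x hx
    set F : Set V := (⋃ j ∈ Finset.range (R + 1), {u | ∃ p : G.Walk x u, p.length = j}) \ {x}
      with hF
    have hFfin : F.Finite :=
      ((Finset.range (R + 1)).finite_toSet.biUnion fun j _ => hG.finite_sphere x j).subset
        (by intro u hu; simpa using hu.1)
    have hnx : e x ∉ e '' F := by
      rintro ⟨u, hu, hux⟩
      exact hu.2 (he.injective hux)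
    have hopen : IsOpen (e '' F)ᶜ := (hFfin.image e).isClosed.isOpen_compl
    obtain ⟨l, r, hlr, hsub⟩ := mem_nhds_iff_exists_Ioo_subset.1 (hopen.mem_nhds hnx)
    obtain ⟨a, ha1, ha2⟩ := exists_rat_btwn hlr.1
    obtain ⟨b, hb1, hb2⟩ := exists_rat_btwn hlr.2
    obtain ⟨n, hn⟩ := hq (a, b)
    refine ⟨n, ⟨⟨?_, hx⟩, ?_⟩⟩
    · show e x ∈ Set.Ioo ((q n).1 : ℝ) ((q n).2 : ℝ)
      rw [hn]
      exact ⟨ha2, hb1⟩
    · simp only [Finset.mem_range, Set.mem_iInter, Set.mem_compl_iff]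
      intro j hj hmem
      obtain ⟨u, hu, hux, p, hp⟩ := mem_twk_iff.1 hmem
      have hu' : e u ∈ Set.Ioo (a : ℝ) (b : ℝ) := by
        have : e u ∈ Set.Ioo ((q n).1 : ℝ) ((q n).2 : ℝ) := hu
        rwa [hn] at this
      have huF : u ∈ F := by
        refine ⟨?_, hux⟩
        simp only [Finset.mem_range, Set.mem_iUnion]
        exact ⟨j, hj, p, hp⟩
      exact hsub ⟨ha1.trans hu'.1, hu'.2.trans hb2⟩ ⟨u, huF, rfl⟩
  have hAB : ∀ n, A n ⊆ B := fun n x hx => hx.1.2
  clear_value A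
  have hidx : ∀ x ∈ ⋃ n, ych G R A n, ∃ k, x ∈ A k ∧ x ∈ ych G R A (k + 1) ∧
      ∀ j ≤ R, x ∉ wk G (ych G R A k) j := by
    intro x hx
    have hx' : ∃ n, x ∈ ych G R A n := Set.mem_iUnion.1 hx
    classical
    obtain ⟨k, hk⟩ : ∃ k, Nat.find hx' = k + 1 := by
      refine Nat.exists_eq_succ_of_ne_zero fun h0 => ?_
      have := Nat.find_spec hx'
      rw [h0] at this
      exact this
    have h1 : x ∈ ych G R A (k + 1) := hk ▸ Nat.find_spec hx'
    have h2 : x ∉ ych G R A k := Nat.find_min hx' (by omega)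
    rcases h1 with h1 | h1
    · exact absurd h1 h2
    · refine ⟨k, h1.1, Or.inr h1, fun j hj => ?_⟩
      have h3 := h1.2
      simp only [Finset.mem_range, Set.mem_iInter, Set.mem_compl_iff] at h3
      exact h3 j (by omega)
  refine ⟨⋃ n, ych G R A n, ?_, MeasurableSet.iUnion fun n => hG.ych_meas hAm n, ?_, ?_⟩
  · intro x hx
    obtain ⟨k, hk, _⟩ := hidx x hx
    exact hAB k hk
  · intro x hx y hy hxy p
    obtain ⟨k, hk, hk', hkR⟩ := hidx x hx
    obtain ⟨l, hl, hl', hlR⟩ := hidx y hy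
    rcases lt_trichotomy k l with h | h | h
    · by_contra hlt
      refine hlR p.length (by omega) (mem_wk_iff.2 ⟨x, ych_mono h hk', p.reverse, ?_⟩)
      exact p.length_reverse
    · subst h
      exact hAd k x hk y hl hxy p
    · by_contra hlt
      exact hkR p.length (by omega) (mem_wk_iff.2 ⟨y, ych_mono h hl', p, rfl⟩)
  · intro x hx
    obtain ⟨n, hn⟩ := hAc x hx
    by_cases h : ∃ j ≤ R, x ∈ wk G (ych G R A n) j
    · obtain ⟨j, hj, hx'⟩ := h
      obtain ⟨z, hz, p, hp⟩ := mem_wk_iff.1 hx'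
      exact ⟨z, Set.mem_iUnion.2 ⟨n, hz⟩, p, by omega⟩
    · push Not at h
      refine ⟨x, Set.mem_iUnion.2 ⟨n + 1, Or.inr ⟨hn, ?_⟩⟩, SimpleGraph.Walk.nil, by simp⟩
      simp only [Finset.mem_range, Set.mem_iInter, Set.mem_compl_iff]
      intro j hj
      exact h j (by omega)

end Pool.Agent.E30
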