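import Pool.Agent.Lib.MP_e30c56_lc.Color

/-! The distance to a sparse covering set. -/

set_option linter.unusedSectionVars false

namespace Pool.Agent.E30

open MeasureTheory Set

universe u v

variable {V : Type u} [MeasurableSpace V] [StandardBorelSpace V] {G : SimpleGraph V}

/-- `Y` is a Borel set with mutual distances more than `R` that every point reaches
by a walk of length at most `R` -/
structure Cov (G : SimpleGraph V) (Y : Set V) (R : ℕ) : Prop where
  meas : MeasurableSet Y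
  disc : ∀ x ∈ Y, ∀ y ∈ Y, x ≠ y → ∀ p : G.Walk x y, R < p.length
  cov : ∀ x, ∃ y ∈ Y, ∃ p : G.Walk x y, p.length ≤ R

theorem BG.exists_cov (hG : BG G) (R : ℕ) : ∃ Y, Cov G Y R := by
  obtain ⟨Y, -, h1, h2, h3⟩ := hG.exists_max_discrete MeasurableSet.univ R
  exact ⟨Y, h1, h2, fun x => h3 x trivial⟩

variable {Y : Set V} {R : ℕ}

theorem Cov.ex (h : Cov G Y R) (x : V) : ∃ k, x ∈ wk G Y k := by
  obtain ⟨y, hy, p, _⟩ := h.cov x
  exact ⟨p.length, mem_wk_iff.2 ⟨y, hy, p, rfl⟩⟩

open Classical in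
/-- distance to `Y` -/
noncomputable def Cov.rho (h : Cov G Y R) (x : V) : ℕ := Nat.find (h.ex x)

theorem Cov.rho_meas (h : Cov G Y R) (hG : BG G) : Measurable h.rho := by
  classical
  exact measurable_find _ fun k => hG.wk_meas h.meas k

theorem Cov.rho_spec (h : Cov G Y R) (x : V) : ∃ y ∈ Y, ∃ p : G.Walk x y, p.length = h.rho x := by
  classical
  exact mem_wk_iff.1 (Nat.find_spec (h.ex x))

theorem Cov.rho_le (h : Cov G Y R) {x y : V} (hy : y ∈ Y) (p : G.Walk x y) :
    h.rho x ≤ p.length := by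
  classical
  exact Nat.find_min' (h.ex x) (mem_wk_iff.2 ⟨y, hy, p, rfl⟩)

theorem Cov.rho_le_R (h : Cov G Y R) (x : V) : h.rho x ≤ R := by
  obtain ⟨y, hy, p, hp⟩ := h.cov x
  exact (h.rho_le hy p).trans hp

theorem Cov.rho_eq_zero (h : Cov G Y R) {x : V} : h.rho x = 0 ↔ x ∈ Y := by
  constructor
  · intro h0
    obtain ⟨y, hy, p, hp⟩ := h.rho_spec x
    rw [h0] at hp
    have := SimpleGraph.Walk.eq_of_length_eq_zero hp
    rw [this]
    exact hy
  · intro hx
    have := h.rho_le hx (SimpleGraph.Walk.nil : G.Walk x x)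
    simpa using this

theorem Cov.rho_adj (h : Cov G Y R) {x y : V} (hxy : G.Adj x y) : h.rho y ≤ h.rho x + 1 := by
  obtain ⟨a, ha, p, hp⟩ := h.rho_spec x
  have := h.rho_le ha (SimpleGraph.Walk.cons hxy.symm p)
  rw [SimpleGraph.Walk.length_cons, hp] at this
  exact this

theorem Cov.exists_pred (h : Cov G Y R) {x : V} {k : ℕ} (hk : h.rho x = k + 1) :
    ∃ p, G.Adj x p ∧ h.rho p = k := by
  obtain ⟨a, ha, p, hp⟩ := h.rho_spec x
  rw [hk] at hp
  cases p with
  | nil => simp at hp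
  | @cons _ b _ hxb q =>
    refine ⟨b, hxb, ?_⟩
    rw [SimpleGraph.Walk.length_cons] at hp
    have h1 := h.rho_le ha q
    have h2 := h.rho_adj hxb.symm
    omega

/-- the distance from the centre -/
theorem Cov.dist_eq (h : Cov G Y R) {x a : V} (ha : a ∈ Y) (p : G.Walk x a)
    (hp : p.length = h.rho x) : G.dist a x = h.rho x := by
  apply le_antisymm
  · rw [← hp, SimpleGraph.dist_comm]
    exact SimpleGraph.dist_le p
  · obtain ⟨q, hq⟩ := (p.reverse.reachable).exists_walk_length_eq_dist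
    rw [← hq, ← q.length_reverse]
    exact h.rho_le ha q.reverse

theorem Cov.same_centre (h : Cov G Y R) {a b x y : V} (ha : a ∈ Y) (hb : b ∈ Y) (p : G.Walk x a)
    (q : G.Walk y b) (w : G.Walk x y) (hle : p.length + q.length + w.length ≤ R) : a = b := by
  by_contra hne
  have := h.disc a ha b hb hne ((p.reverse.append w).append q)
  rw [SimpleGraph.Walk.length_append, SimpleGraph.Walk.length_append,
    SimpleGraph.Walk.length_reverse] at this
  omega

theorem Cov.no_peer (h : Cov G Y R) (hac : G.IsAcyclic) {x y : V} (hxy : G.Adj x y)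
    (hle : 2 * h.rho x + 1 ≤ R) : h.rho x ≠ h.rho y := by
  intro heq
  obtain ⟨a, ha, p, hp⟩ := h.rho_spec x
  obtain ⟨b, hb, q, hq⟩ := h.rho_spec y
  have hab : a = b := by
    refine h.same_centre ha hb p q (SimpleGraph.Walk.cons hxy SimpleGraph.Walk.nil) ?_
    rw [SimpleGraph.Walk.length_cons, SimpleGraph.Walk.length_nil, hp, hq]
    omega
  subst hab
  have h1 := h.dist_eq ha p hp
  have h2 := h.dist_eq ha q hq
  exact hac.dist_ne_of_adj hxy p.reverse.reachable (by rw [h1, h2, heq])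

theorem Cov.unique_pred (h : Cov G Y R) (hac : G.IsAcyclic) {x u u' : V} (hu : G.Adj x u)
    (hu' : G.Adj x u') {j : ℕ} (hj : h.rho u = j) (hj' : h.rho u' = j) (hx : h.rho x = j + 1)
    (hle : 2 * j + 2 ≤ R) : u = u' := by
  obtain ⟨a, ha, p, hp⟩ := h.rho_spec u
  obtain ⟨b, hb, q, hq⟩ := h.rho_spec u'
  have hab : a = b := by
    refine h.same_centre ha hb p q
      (SimpleGraph.Walk.cons hu.symm (SimpleGraph.Walk.cons hu' SimpleGraph.Walk.nil)) ?_
    rw [SimpleGraph.Walk.length_cons, SimpleGraph.Walk.length_cons, SimpleGraph.Walk.length_nil,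
      hp, hq]
    omega
  subst hab
  have hP : (SimpleGraph.Walk.cons hu p).IsPath := by
    apply SimpleGraph.Walk.isPath_of_length_eq_dist
    rw [SimpleGraph.dist_comm, SimpleGraph.Walk.length_cons, hp, hj]
    rw [h.dist_eq ha (SimpleGraph.Walk.cons hu p) (by rw [SimpleGraph.Walk.length_cons]; omega), hx]
  have hQ : (SimpleGraph.Walk.cons hu' q).IsPath := by
    apply SimpleGraph.Walk.isPath_of_length_eq_dist
    rw [SimpleGraph.dist_comm, SimpleGraph.Walk.length_cons, hq, hj']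
    rw [h.dist_eq ha (SimpleGraph.Walk.cons hu' q) (by rw [SimpleGraph.Walk.length_cons]; omega), hx]
  have := (hac.subsingleton_path x a).elim ⟨_, hP⟩ ⟨_, hQ⟩
  have h2 : SimpleGraph.Walk.cons hu p = SimpleGraph.Walk.cons hu' q := congrArg Subtype.val this
  have h3 := congrArg SimpleGraph.Walk.snd h2
  simpa using h3

/-- a Borel 3-colouring off `Y` -/
theorem Cov.exists_three (h : Cov G Y R) (hG : BG G) :
    ∃ c : V → ℕ, Measurable c ∧ (∀ x, c x < 3) ∧
      ∀ x ∉ Y, ∀ y ∉ Y, G.Adj x y → c x ≠ c y := by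
  obtain ⟨κ, hκm, hκ4, hκ⟩ := hG.exists_four
  have hT : Measurable fun x => (R - h.rho x) * 4 + κ x :=
    (((measurable_const.sub (h.rho_meas hG)).mul_const 4).add hκm)
  refine hG.exists_greedy hT ?_ ?_
  · intro x y hxy heq
    apply hκ x y hxy
    have h1 := hκ4 x
    have h2 := hκ4 y
    omega
  · intro y hy
    have h0 : h.rho y ≠ 0 := fun h0 => hy (h.rho_eq_zero.1 h0)
    obtain ⟨k, hk⟩ := Nat.exists_eq_succ_of_ne_zero h0
    obtain ⟨p, hp, hpk⟩ := h.exists_pred hk
    refine ⟨p, hp, ?_⟩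
    have h1 := hκ4 y
    have h2 := h.rho_le_R y
    rw [hpk, hk]
    rw [hk] at h2
    omega

end Pool.Agent.E30
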