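import Pool.Agent.Lib.MP_e30c56_lc.Turn

/-! Triangle-connected graphs which are not 3-colourable have a turning scheme. -/

set_option linter.unusedSectionVars false

namespace Pool.Agent.E30

open Set

universe w

variable {W : Type w}

/-- any two edges are joined by a chain of edges in which consecutive edges lie in a triangle -/
def TriangleConnected (K : SimpleGraph W) : Prop :=
  ∀ e ∈ K.edgeSet, ∀ e' ∈ K.edgeSet, Relation.ReflTransGen
    (fun e₁ e₂ : Sym2 W => ∃ a b c, K.Adj a b ∧ K.Adj b c ∧ K.Adj a c ∧ e₁ = s(a, b) ∧ e₂ = s(b, c))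
    e e'

/-- closure of the triangle -/
def Cl (H : SimpleGraph W) (t : ℕ → W) : ℕ → ℕ → Set W
  | 0, k => {t k}
  | i + 1, k => {a | ∀ k' < 3, k ≠ k' → ∃ b ∈ Cl H t i k', H.Adj a b}

theorem Cl_succ {H : SimpleGraph W} {t : ℕ → W}
    (ht : ∀ a < 3, ∀ b < 3, a ≠ b → H.Adj (t a) (t b)) (i : ℕ) :
    ∀ k < 3, Cl H t i k ⊆ Cl H t (i + 1) k := by
  induction i with
  | zero =>
    rintro k hk a rfl k' hk' hne
    exact ⟨t k', rfl, ht k hk k' hk' hne⟩
  | succ i ih =>
    intro k hk a ha k' hk' hne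
    obtain ⟨b, hb, hab⟩ := ha k' hk' hne
    exact ⟨b, ih k' hk' hb, hab⟩

theorem Cl_mono {H : SimpleGraph W} {t : ℕ → W}
    (ht : ∀ a < 3, ∀ b < 3, a ≠ b → H.Adj (t a) (t b)) {i j : ℕ} (hij : i ≤ j) :
    ∀ k < 3, Cl H t i k ⊆ Cl H t j k := by
  induction j with
  | zero => intro k _; rw [Nat.le_zero.1 hij]
  | succ j ih =>
    intro k hk
    rcases Nat.lt_or_ge i (j + 1) with h | h
    · exact (ih (by omega) k hk).trans (Cl_succ ht j k hk)
    · rw [le_antisymm hij h]

/-- ordered triangles, all vertices of which lie in the closure -/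
def Good (H : SimpleGraph W) (t : ℕ → W) (s : ℕ → W) : Prop :=
  (∀ a < 3, ∀ b < 3, a ≠ b → H.Adj (s a) (s b)) ∧ ∃ i, ∀ k < 3, s k ∈ Cl H t i k

theorem Good.flip {H : SimpleGraph W} {t s : ℕ → W}
    (ht : ∀ a < 3, ∀ b < 3, a ≠ b → H.Adj (t a) (t b)) (hs : Good H t s) {k : ℕ} (hk : k < 3)
    {x : W} (hx : ∀ k' < 3, k ≠ k' → H.Adj x (s k')) : Good H t (Function.update s k x) := by
  obtain ⟨h1, i, hi⟩ := hs
  refine ⟨?_, i + 1, ?_⟩
  · intro a ha b hb hab
    by_cases hak : a = k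
    · subst hak
      rw [Function.update_self, Function.update_of_ne hab.symm]
      exact hx b hb hab
    · rw [Function.update_of_ne hak]
      by_cases hbk : b = k
      · subst hbk
        rw [Function.update_self]
        exact (hx a ha (Ne.symm hak)).symm
      · rw [Function.update_of_ne hbk]
        exact h1 a ha b hb hab
  · intro a ha
    by_cases hak : a = k
    · subst hak
      rw [Function.update_self]
      intro k' hk' hne
      exact ⟨s k', hi k' hk', hx k' hk' hne⟩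
    · rw [Function.update_of_ne hak]
      exact Cl_succ ht i a ha (hi a ha)

theorem third {a b : ℕ} (ha : a < 3) (hb : b < 3) (hab : a ≠ b) :
    ∃ c < 3, c ≠ a ∧ c ≠ b ∧ ∀ d < 3, d = a ∨ d = b ∨ d = c := by
  have h1 : a = 0 ∨ a = 1 ∨ a = 2 := by omega
  have h2 : b = 0 ∨ b = 1 ∨ b = 2 := by omega
  rcases h1 with rfl | rfl | rfl <;> rcases h2 with rfl | rfl | rfl <;> simp at hab
  · exact ⟨2, by norm_num, by norm_num, by norm_num, by intro d hd; omega⟩
  · exact ⟨1, by norm_num, by norm_num, by norm_num, by intro d hd; omega⟩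
  · exact ⟨2, by norm_num, by norm_num, by norm_num, by intro d hd; omega⟩
  · exact ⟨0, by norm_num, by norm_num, by norm_num, by intro d hd; omega⟩
  · exact ⟨1, by norm_num, by norm_num, by norm_num, by intro d hd; omega⟩
  · exact ⟨0, by norm_num, by norm_num, by norm_num, by intro d hd; omega⟩

/-- every edge of a triangle-connected graph occurs in a good triple -/
theorem edge_good {H K : SimpleGraph W} (hKH : K ≤ H) {t : ℕ → W}
    (htK : ∀ a < 3, ∀ b < 3, a ≠ b → K.Adj (t a) (t b)) (hK : TriangleConnected K) {u v : W}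
    (huv : K.Adj u v) : ∃ s, Good H t s ∧ ∃ a < 3, ∃ b < 3, a ≠ b ∧ s a = u ∧ s b = v := by
  have ht : ∀ a < 3, ∀ b < 3, a ≠ b → H.Adj (t a) (t b) := fun a ha b hb h => hKH (htK a ha b hb h)
  have h01 : K.Adj (t 0) (t 1) := htK 0 (by norm_num) 1 (by norm_num) (by norm_num)
  have hch := hK s(t 0, t 1) h01 s(u, v) huv
  have key : ∀ e, Relation.ReflTransGen (fun e₁ e₂ : Sym2 W => ∃ a b c, K.Adj a b ∧ K.Adj b c ∧
      K.Adj a c ∧ e₁ = s(a, b) ∧ e₂ = s(b, c)) s(t 0, t 1) e →
      ∀ u v, e = s(u, v) → ∃ s, Good H t s ∧ ∃ a < 3, ∃ b < 3, a ≠ b ∧ s a = u ∧ s b = v := by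
    intro e he
    induction he with
    | refl =>
      intro u v huv
      have hg : Good H t t := ⟨ht, 0, fun k _ => rfl⟩
      rcases Sym2.eq_iff.1 huv with ⟨h1, h2⟩ | ⟨h1, h2⟩
      · exact ⟨t, hg, 0, by norm_num, 1, by norm_num, by norm_num, h1, h2⟩
      · exact ⟨t, hg, 1, by norm_num, 0, by norm_num, by norm_num, h2, h1⟩
    | tail _ hstep ih =>
      obtain ⟨p, q, r, hpq, hqr, hpr, h1, h2⟩ := hstep
      obtain ⟨s, hs, a, ha, b, hb, hab, hsa, hsb⟩ := ih p q h1
      obtain ⟨c, hc, hca, hcb, hall⟩ := third ha hb hab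
      have hfl : Good H t (Function.update s c r) := by
        refine hs.flip ht hc ?_
        intro d hd hcd
        rcases hall d hd with rfl | rfl | rfl
        · rw [hsa]
          exact (hKH hpr).symm
        · rw [hsb]
          exact (hKH hqr).symm
        · exact absurd rfl hcd
      have hsb' : Function.update s c r b = q := by
        rw [Function.update_of_ne (Ne.symm hcb), hsb]
      intro u v huv
      rw [h2] at huv
      rcases Sym2.eq_iff.1 huv with ⟨h3, h4⟩ | ⟨h3, h4⟩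
      · exact ⟨_, hfl, b, hb, c, hc, Ne.symm hcb, by rw [hsb', h3], by
          rw [Function.update_self, h4]⟩
      · exact ⟨_, hfl, c, hc, b, hb, hcb, by rw [Function.update_self, h4], by rw [hsb', h3]⟩
  exact key _ hch u v rfl

/-- the turning scheme -/
theorem exists_scheme {H K : SimpleGraph W} (hKH : K ≤ H) (hK : TriangleConnected K)
    (h3 : ¬ K.Colorable 3) : ∃ m, Nonempty (Scheme H m) := by
  classical
  -- there is a triangle
  have htri : ∃ a b c, K.Adj a b ∧ K.Adj b c ∧ K.Adj a c := by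
    by_contra hno
    apply h3
    by_cases he : ∃ u v, K.Adj u v
    · obtain ⟨u, v, huv⟩ := he
      have hall : ∀ e ∈ K.edgeSet, e = s(u, v) := by
        intro e hem
        have hch := hK s(u, v) huv e hem
        have : ∀ e, Relation.ReflTransGen (fun e₁ e₂ : Sym2 W => ∃ a b c, K.Adj a b ∧ K.Adj b c ∧
            K.Adj a c ∧ e₁ = s(a, b) ∧ e₂ = s(b, c)) s(u, v) e → e = s(u, v) := by
          intro e he
          induction he with
          | refl => rfl
          | tail _ hst _ =>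
            obtain ⟨a, b, c, h1, h2, h3, _, _⟩ := hst
            exact absurd ⟨a, b, c, h1, h2, h3⟩ hno
        exact this e hch
      refine ⟨SimpleGraph.Coloring.mk (fun x => if x = u then 0 else 1) ?_⟩
      intro x y hxy
      have := hall s(x, y) hxy
      rcases Sym2.eq_iff.1 this with ⟨rfl, rfl⟩ | ⟨rfl, rfl⟩
      · rw [if_pos rfl, if_neg hxy.ne.symm]
        decide
      · rw [if_neg hxy.ne, if_pos rfl]
        decide
    · refine ⟨SimpleGraph.Coloring.mk (fun _ => 0) ?_⟩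
      intro x y hxy
      exact absurd ⟨x, y, hxy⟩ he
  obtain ⟨a, b, c, hab, hbc, hac⟩ := htri
  set t : ℕ → W := fun k => if k = 0 then a else if k = 1 then b else c with htd
  have htK : ∀ i < 3, ∀ j < 3, i ≠ j → K.Adj (t i) (t j) := by
    intro i hi j hj hij
    have h1 : i = 0 ∨ i = 1 ∨ i = 2 := by omega
    have h2 : j = 0 ∨ j = 1 ∨ j = 2 := by omega
    rcases h1 with rfl | rfl | rfl <;> rcases h2 with rfl | rfl | rfl <;>
      simp [htd, hab, hbc, hac, hab.symm, hbc.symm, hac.symm] at hij ⊢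
  clear_value t
  have ht : ∀ a < 3, ∀ b < 3, a ≠ b → H.Adj (t a) (t b) := fun a ha b hb h => hKH (htK a ha b hb h)
  -- a vertex in two positions
  have htwo : ∃ x, ∃ s s' : ℕ → W, Good H t s ∧ Good H t s' ∧ ∃ i < 3, ∃ j < 3, i ≠ j ∧
      s i = x ∧ s' j = x := by
    by_contra hno
    apply h3
    have hno' : ∀ x, ∀ s s' : ℕ → W, Good H t s → Good H t s' → ∀ i < 3, ∀ j < 3,
        s i = x → s' j = x → i = j := by
      intro x s s' hs hs' i hi j hj h1 h2
      by_contra hij
      exact hno ⟨x, s, s', hs, hs', i, hi, j, hj, hij, h1, h2⟩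
    refine ⟨SimpleGraph.Coloring.mk (fun x =>
      if h : ∃ i, i < 3 ∧ ∃ s, Good H t s ∧ s i = x then (⟨h.choose, h.choose_spec.1⟩ : Fin 3)
        else 0) ?_⟩
    intro x y hxy
    obtain ⟨s, hs, i, hi, j, hj, hij, hsi, hsj⟩ := edge_good hKH htK hK hxy
    have hx : ∃ i, i < 3 ∧ ∃ s, Good H t s ∧ s i = x := ⟨i, hi, s, hs, hsi⟩
    have hy : ∃ i, i < 3 ∧ ∃ s, Good H t s ∧ s i = y := ⟨j, hj, s, hs, hsj⟩
    rw [dif_pos hx, dif_pos hy]
    intro heq
    have heq' : hx.choose = hy.choose := congrArg Fin.val heq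
    obtain ⟨h1, s1, hs1, h1x⟩ := hx.choose_spec
    obtain ⟨h2, s2, hs2, h2y⟩ := hy.choose_spec
    have e1 := hno' x s s1 hs hs1 i hi _ h1 hsi h1x
    have e2 := hno' y s s2 hs hs2 j hj _ h2 hsj h2y
    apply hij
    rw [e1, e2, heq']
  obtain ⟨x, s, s', ⟨hs, p, hp⟩, ⟨hs', p', hp'⟩, i, hi, j, hj, hij, hsi, hsj⟩ := htwo
  obtain ⟨k, hk, hki, hkj, hall⟩ := third hi hj hij
  refine ⟨max p p', ⟨{ t := t, X := Cl H t, w0 := s j, ht := ht, hX0 := ?_, hX := ?_, hw := ?_ }⟩⟩
  · intro k _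
    exact Set.Subset.rfl
  · intro i k _ k' hk' hne a ha
    exact ha k' hk' hne
  · intro d hd
    rcases hall d hd with rfl | rfl | rfl
    · exact ⟨s d, Cl_mono ht (le_max_left _ _) d hd (hp d hd), hs j hj d hd (Ne.symm hij)⟩
    · refine ⟨s' d, Cl_mono ht (le_max_right _ _) d hd (hp' d hd), ?_⟩
      rw [hsj, ← hsi]
      exact hs d hd i hi (Ne.symm hij)
    · exact ⟨s d, Cl_mono ht (le_max_left _ _) d hd (hp d hd), hs j hj d hd (Ne.symm hkj)⟩

end Pool.Agent.E30
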