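import Pool.Agent.Lib.MP_e30c56_lc.Rho

/-! Turning the 3-colouring around the points of a sparse set. -/

set_option linter.unusedSectionVars false

namespace Pool.Agent.E30

open MeasureTheory Set

universe u v w

/-- The data which allow to turn a 3-colouring by `t` around a point: sets `X i k` of values
allowed for a vertex of colour `k` at distance `m - i` from the centre, and the value `w0` of
the centre. -/
structure Scheme {W : Type w} (H : SimpleGraph W) (m : ℕ) where
  t : ℕ → W
  X : ℕ → ℕ → Set W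
  w0 : W
  ht : ∀ a < 3, ∀ b < 3, a ≠ b → H.Adj (t a) (t b)
  hX0 : ∀ k < 3, X 0 k ⊆ {t k}
  hX : ∀ i, ∀ k < 3, ∀ k' < 3, k ≠ k' → ∀ a ∈ X (i + 1) k, ∃ b ∈ X i k', H.Adj a b
  hw : ∀ k < 3, ∃ b ∈ X m k, H.Adj w0 b

variable {V : Type u} [MeasurableSpace V] [StandardBorelSpace V] {G : SimpleGraph V}
variable {W : Type w} {H : SimpleGraph W}

/-- choice of the next value -/
noncomputable def nxt (H : SimpleGraph W) (w0 : W) (S : Set W) (A : W → Prop) : W := by
  classical
  exact if h : ∃ b, b ∈ S ∧ ∃ a, A a ∧ H.Adj a b then h.choose else w0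

theorem nxt_spec {w0 : W} {S : Set W} {A : W → Prop} {a : W} (hA : ∀ a', A a' ↔ a' = a)
    (h : ∃ b ∈ S, H.Adj a b) : nxt H w0 S A ∈ S ∧ H.Adj a (nxt H w0 S A) := by
  have h' : ∃ b, b ∈ S ∧ ∃ a, A a ∧ H.Adj a b := by
    obtain ⟨b, hb, hab⟩ := h
    exact ⟨b, hb, a, (hA a).2 rfl, hab⟩
  unfold nxt
  rw [dif_pos h']
  obtain ⟨h1, a', h2, h3⟩ := h'.choose_spec
  refine ⟨h1, ?_⟩
  have : a' = a := (hA a').1 h2
  rw [← this]
  exact h3

variable {Y : Set V} {R : ℕ}

/-- the turned colouring; the parameter is the distance up to which it is already defined -/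
noncomputable def trn (G : SimpleGraph V) (H : SimpleGraph W) (Y : Set V) (ρ c : V → ℕ)
    (t : ℕ → W) (w0 : W) (X : ℕ → ℕ → Set W) (m : ℕ) : ℕ → V → W
  | 0, x => by classical exact if x ∈ Y then w0 else t (c x)
  | j + 1, x => if ρ x = j + 1 then
      nxt H w0 (X (m - j) (c x)) (fun a => x ∈ nb G {z | ρ z = j ∧ trn G H Y ρ c t w0 X m j z = a})
    else trn G H Y ρ c t w0 X m j x

theorem trn_meas [Finite W] [MeasurableSpace W] [MeasurableSingletonClass W] (hG : BG G)
    (hY : MeasurableSet Y) {ρ c : V → ℕ} (hρ : Measurable ρ) (hc : Measurable c) (t : ℕ → W)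
    (w0 : W) (X : ℕ → ℕ → Set W) (m j : ℕ) : Measurable (trn G H Y ρ c t w0 X m j) := by
  classical
  induction j with
  | zero =>
    exact Measurable.ite hY measurable_const ((measurable_from_nat (f := t)).comp hc)
  | succ j ih =>
    refine Measurable.ite (hρ (measurableSet_singleton (j + 1))) ?_ ih
    have h1 : Measurable fun x : V => fun a : W =>
        x ∈ nb G {z | ρ z = j ∧ trn G H Y ρ c t w0 X m j z = a} := by
      refine measurable_pi_iff.2 fun a => ?_
      refine measurable_to_prop ?_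
      have : (fun x : V => x ∈ nb G {z | ρ z = j ∧ trn G H Y ρ c t w0 X m j z = a}) ⁻¹' {True} =
          nb G ({z | ρ z = j} ∩ (trn G H Y ρ c t w0 X m j) ⁻¹' {a}) := by
        ext x
        simp only [Set.mem_preimage, Set.mem_singleton_iff, eq_iff_iff, iff_true]
        rfl
      rw [this]
      exact hG.nb_meas ((hρ (measurableSet_singleton j)).inter (ih (measurableSet_singleton a)))
    have h2 : Measurable fun p : ℕ × (W → Prop) => nxt H w0 (X (m - j) p.1) p.2 :=
      measurable_from_prod_countable_right fun k =>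
        Measurable.of_discrete (f := fun A : W → Prop => nxt H w0 (X (m - j) k) A)
    exact h2.comp (hc.prodMk h1)

theorem trn_stable {ρ c : V → ℕ} {t : ℕ → W} {w0 : W} {X : ℕ → ℕ → Set W} {m j : ℕ} {x : V}
    (h : ρ x ≤ j) : trn G H Y ρ c t w0 X m j x = trn G H Y ρ c t w0 X m (ρ x) x := by
  induction j with
  | zero => rw [Nat.le_zero.1 h]
  | succ j ih =>
    rcases Nat.lt_or_ge j (ρ x) with h1 | h1
    · rw [le_antisymm h h1]
    · rw [← ih h1]
      show (if ρ x = j + 1 then _ else _) = _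
      rw [if_neg (by omega)]

theorem trn_far {ρ c : V → ℕ} {t : ℕ → W} {w0 : W} {X : ℕ → ℕ → Set W} {m j : ℕ} {x : V}
    (h : j < ρ x) (hx : x ∉ Y) : trn G H Y ρ c t w0 X m j x = t (c x) := by
  classical
  induction j with
  | zero =>
    show (if x ∈ Y then w0 else t (c x)) = _
    rw [if_neg hx]
  | succ j ih =>
    show (if ρ x = j + 1 then _ else _) = _
    rw [if_neg (by omega)]
    exact ih (by omega)

/-- main construction -/
theorem Scheme.exists_hom [Finite W] [MeasurableSpace W] [MeasurableSingletonClass W] {m : ℕ}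
    (S : Scheme H m) (hG : BG G) (hac : G.IsAcyclic) :
    ∃ f : V → W, Measurable f ∧ ∀ x y, G.Adj x y → H.Adj (f x) (f y) := by
  classical
  obtain ⟨Y, hY⟩ := hG.exists_cov (2 * m + 4)
  obtain ⟨c, hcm, hc3, hc⟩ := hY.exists_three hG
  set ρ := hY.rho with hρ
  set F := trn G H Y ρ c S.t S.w0 S.X m with hF
  have hz : ∀ x, ρ x = 0 → F 0 x = S.w0 := by
    intro x hx
    have : x ∈ Y := hY.rho_eq_zero.1 hx
    show (if x ∈ Y then S.w0 else S.t (c x)) = _
    rw [if_pos this]
  have hYρ : ∀ x, 0 < ρ x → x ∉ Y := by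
    intro x hx hxY
    rw [hρ, hY.rho_eq_zero.2 hxY] at hx
    exact lt_irrefl _ hx
  -- the value at distance j + 1
  have hstep : ∀ j ≤ m, ∀ x y, G.Adj x y → ρ x = j → ρ y = j + 1 →
      (∃ b ∈ S.X (m - j) (c y), H.Adj (F j x) b) →
      F (j + 1) y ∈ S.X (m - j) (c y) ∧ H.Adj (F j x) (F (j + 1) y) := by
    intro j hj x y hxy hx hy hex
    have e : F (j + 1) y = nxt H S.w0 (S.X (m - j) (c y))
        (fun a => y ∈ nb G {z | ρ z = j ∧ F j z = a}) := by
      show (if ρ y = j + 1 then _ else _) = _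
      rw [if_pos hy]
    rw [e]
    refine nxt_spec (a := F j x) ?_ hex
    intro a'
    constructor
    · rintro ⟨z, hyz, hz1, hz2⟩
      have : z = x := hY.unique_pred hac hyz hxy.symm hz1 hx hy (by omega)
      rw [← hz2, this]
    · rintro rfl
      exact ⟨x, hxy.symm, hx, rfl⟩
  have hinv : ∀ j ≤ m, ∀ y, ρ y = j + 1 → F (j + 1) y ∈ S.X (m - j) (c y) := by
    intro j
    induction j with
    | zero =>
      intro _ y hy
      obtain ⟨x, hyx, hx⟩ := hY.exists_pred hy
      refine (hstep 0 (Nat.zero_le _) x y hyx.symm hx hy ?_).1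
      rw [hz x hx, Nat.sub_zero]
      exact S.hw (c y) (hc3 y)
    | succ j ih =>
      intro hj y hy
      obtain ⟨x, hyx, hx⟩ := hY.exists_pred hy
      change ρ x = j + 1 at hx
      refine (hstep (j + 1) hj x y hyx.symm hx hy ?_).1
      have h1 := ih (by omega) x hx
      have e : m - j = m - (j + 1) + 1 := by omega
      rw [e] at h1
      refine S.hX _ (c x) (hc3 x) (c y) (hc3 y) ?_ _ h1
      exact hc x (hYρ x (by rw [hx]; omega)) y (hYρ y (by rw [hy]; omega)) hyx.symm
  have hadj : ∀ j ≤ m, ∀ x y, G.Adj x y → ρ x = j → ρ y = j + 1 →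
      H.Adj (F j x) (F (j + 1) y) := by
    intro j hj x y hxy hx hy
    refine (hstep j hj x y hxy hx hy ?_).2
    rcases Nat.eq_zero_or_pos j with h0 | h0
    · subst h0
      rw [hz x hx, Nat.sub_zero]
      exact S.hw (c y) (hc3 y)
    · obtain ⟨i, rfl⟩ := Nat.exists_eq_succ_of_ne_zero h0.ne'
      have h1 := hinv i (by omega) x hx
      have e : m - i = m - (i + 1) + 1 := by omega
      rw [e] at h1
      refine S.hX _ (c x) (hc3 x) (c y) (hc3 y) ?_ _ h1
      exact hc x (hYρ x (by rw [hx]; omega)) y (hYρ y (by rw [hy]; omega)) hxy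
  refine ⟨F (m + 1), trn_meas hG hY.meas (hY.rho_meas hG) hcm _ _ _ _ _, ?_⟩
  -- one oriented edge
  have key : ∀ x y, G.Adj x y → ρ x ≤ ρ y → H.Adj (F (m + 1) x) (F (m + 1) y) := by
    intro x y hxy hle
    rcases Nat.lt_or_ge m (ρ x) with h1 | h1
    · -- both far
      have hx : F (m + 1) x = S.t (c x) := by
        rcases Nat.lt_or_ge (m + 1) (ρ x) with h2 | h2
        · exact trn_far h2 (hYρ x (by omega))
        · have h3 : ρ x = m + 1 := le_antisymm h2 h1
          have h4 := hinv m le_rfl x h3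
          rw [Nat.sub_self] at h4
          exact S.hX0 _ (hc3 x) h4
      have hy : F (m + 1) y = S.t (c y) := by
        rcases Nat.lt_or_ge (m + 1) (ρ y) with h2 | h2
        · exact trn_far h2 (hYρ y (by omega))
        · have h3 : ρ y = m + 1 := by omega
          have h4 := hinv m le_rfl y h3
          rw [Nat.sub_self] at h4
          exact S.hX0 _ (hc3 y) h4
      rw [hx, hy]
      exact S.ht _ (hc3 x) _ (hc3 y) (hc x (hYρ x (by omega)) y (hYρ y (by omega)) hxy)
    · have hne : ρ x ≠ ρ y := hY.no_peer hac hxy (by rw [← hρ]; omega)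
      have hle2 : ρ y ≤ ρ x + 1 := hY.rho_adj hxy
      have hy : ρ y = ρ x + 1 := by omega
      have h3 := hadj (ρ x) h1 x y hxy rfl hy
      have ex : F (m + 1) x = F (ρ x) x := trn_stable (by omega)
      have ey : F (m + 1) y = F (ρ x + 1) y := by
        rw [← hy]
        exact trn_stable (by omega)
      rw [ex, ey]
      exact h3
  intro x y hxy
  rcases le_total (ρ x) (ρ y) with h | h
  · exact key x y hxy h
  · exact (key y x hxy.symm h).symm

end Pool.Agent.E30
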